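import Mathlib

/-!
# Row P8: three arcs in `ZMod (3 k + 1)`, the cases with a type T0/T1 start pattern

`x, y, z` are the starts of the three arcs and `a, b, c` their lengths.
-/

set_option autoImplicit false

namespace Pool.Agent.Helper55.FF

/-- The standing assumptions on the starts and the lengths of the three arcs. -/
structure Cfg (n k : ℕ) (x y z : ZMod n) (a b c : ℕ) : Prop where
  hn : n = 3 * k + 1
  hk6 : 6 ≤ k
  hke : Even k
  ha : 1 ≤ a
  hb : 1 ≤ b
  hc : 1 ≤ c
  habc : a + b + c = k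
  J : ∀ p q r t : ℕ, p + q + r = 3 → t + 3 ≤ p * a + q * b + r * c →
    (p : ZMod n) * x + q * y + r * z + t ≠ 0

variable {n k : ℕ} {x y z : ZMod n} {a b c : ℕ}

lemma Cfg.swap (h : Cfg n k x y z a b c) : Cfg n k y x z b a c where
  hn := h.hn
  hk6 := h.hk6
  hke := h.hke
  ha := h.hb
  hb := h.ha
  hc := h.hc
  habc := by have := h.habc; omega
  J := by
    intro p q r t h1 h2
    have h3 := h.J q p r t (by omega) (by omega)
    intro h4
    apply h3
    rw [← h4]
    ring

lemma Cfg.rot (h : Cfg n k x y z a b c) : Cfg n k y z x b c a where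
  hn := h.hn
  hk6 := h.hk6
  hke := h.hke
  ha := h.hb
  hb := h.hc
  hc := h.ha
  habc := by have := h.habc; omega
  J := by
    intro p q r t h1 h2
    have h3 := h.J r p q t (by omega) (by omega)
    intro h4
    apply h3
    rw [← h4]
    ring

/-- no multiple of `n` in `J_m` -/
lemma Cfg.jz (h : Cfg n k x y z a b c) (p q r : ℕ) (hpqr : p + q + r = 3) (L N : ℤ)
    (hL : (p : ZMod n) * x + q * y + r * z = (L : ZMod n)) (hN : (n : ℤ) ∣ N) :
    N < L ∨ L + (p * a + q * b + r * c) - 3 < N := by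
  by_contra hcon
  push Not at hcon
  obtain ⟨h1, h2⟩ := hcon
  obtain ⟨t, ht⟩ := Int.eq_ofNat_of_zero_le (sub_nonneg.2 h1)
  apply h.J p q r t hpqr
  · have h3 : ((t + 3 : ℕ) : ℤ) ≤ ((p * a + q * b + r * c : ℕ) : ℤ) := by
      push_cast
      linarith
    exact_mod_cast h3
  · rw [hL]
    have h3 : N = L + t := by linarith
    have h4 : ((N : ℤ) : ZMod n) = 0 := (ZMod.intCast_zmod_eq_zero_iff_dvd N n).2 hN
    rw [h3] at h4
    push_cast at h4
    exact h4

lemma dv {n : ℕ} {E : ℤ} (h : ((E : ℤ) : ZMod n) = 0) : (n : ℤ) ∣ E :=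
  (ZMod.intCast_zmod_eq_zero_iff_dvd E n).1 h

lemma dv3 {n : ℕ} {E : ℤ} (h : (n : ℤ) ∣ E) (h0 : 0 ≤ E) (h1 : E < 3 * n) :
    E = 0 ∨ E = n ∨ E = 2 * n := by
  obtain ⟨v, rfl⟩ := h
  have hn : (0 : ℤ) < n := by
    by_contra hcon
    have : (n : ℤ) = 0 := by omega
    rw [this] at h1
    simp at h1
  have hv0 : 0 ≤ v := by
    by_contra hcon
    push Not at hcon
    nlinarith
  have hv1 : v < 3 := by
    by_contra hcon
    push Not at hcon
    nlinarith
  interval_cases v
  · left; ring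
  · right; left; ring
  · right; right; ring

lemma Cfg.k3 (h : Cfg n k x y z a b c) : 3 * (k : ZMod n) + 1 = 0 := by
  have h1 : ((n : ℕ) : ZMod n) = 0 := ZMod.natCast_self n
  have h2 : ((n : ℕ) : ZMod n) = ((3 * k + 1 : ℕ) : ZMod n) := by
    rw [← h.hn]
  rw [h1] at h2
  push_cast at h2
  exact h2.symm

lemma Cfg.abc (h : Cfg n k x y z a b c) : (a : ZMod n) + b + c = k := by
  rw [← h.habc]
  push_cast
  ring

/-! ## T0 -/

/-- (T0, T0') -/
lemma t0_t0 (h : Cfg n k x y z a b c) (hS : x + y + z = 1)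
    (hE : (x + a - 1) + (y + b - 1) + (z + c - 1) = -1) : False := by
  have hK := h.k3
  have hA := h.abc
  have h1 : (((k : ℤ) - 1 : ℤ) : ZMod n) = 0 := by
    push_cast
    linear_combination hE - hS - hA
  have h2 := dv3 (dv h1) (by have := h.hk6; omega) (by have := h.hn; omega)
  have := h.hn
  have := h.hk6
  omega

/-- (T0, T1') -/
lemma t0_t1 (h : Cfg n k x y z a b c) (hS : x + y + z = 1)
    (hE : 2 * (x + a - 1) + (y + b - 1) = -1) (hE' : 3 * (z + c - 1) = -1) : False := by
  have hK := h.k3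
  have hA := h.abc
  have hz : z = 1 + a + b := by
    linear_combination (-(k : ZMod n)) * hE' + (z + c - 1) * hK - hA
  have hx : x = 2 - a := by
    linear_combination hE - hS + hz
  have hy : y = -2 - b := by
    linear_combination hE - 2 * hx
  have j1 := h.jz 3 0 0 rfl (6 - 3 * a) 0 (by push_cast; rw [hx]; ring) (dvd_zero _)
  have j2 := h.jz 0 2 1 rfl (a - b - 3) 0 (by push_cast; rw [hy, hz]; ring) (dvd_zero _)
  have := h.ha
  have := h.hb
  have := h.hc
  have := h.habc
  have := h.hk6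
  push_cast at j1 j2
  omega

/-- (T0, T2') -/
lemma t0_t2 (h : Cfg n k x y z a b c) (hS : x + y + z = 1)
    (hE : 2 * (x + a - 1) + (y + b - 1) = -1) (hE' : 2 * (y + b - 1) + (z + c - 1) = -1) :
    False := by
  have hK := h.k3
  have hA := h.abc
  have hx : 3 * x = 1 + k - 3 * a := by
    linear_combination hS + hE - hE' + hA
  have hy : 3 * y = 4 - 2 * k - 3 * b := by
    linear_combination 3 * hE - 2 * hx
  have hz : 3 * z = k - 3 - 3 * c := by
    linear_combination 3 * hS - hx - hy + 3 * hA + hK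
  have j1 := h.jz 3 0 0 rfl (1 + k - 3 * a) 0 (by push_cast; linear_combination hx) (dvd_zero _)
  have j2 := h.jz 0 3 0 rfl (4 - 2 * k - 3 * b) (-n)
    (by push_cast; linear_combination hy) (dvd_neg.2 (dvd_refl _))
  have j3 := h.jz 0 0 3 rfl (k - 3 - 3 * c) 0 (by push_cast; linear_combination hz) (dvd_zero _)
  have := h.ha
  have := h.hb
  have := h.hc
  have := h.habc
  have := h.hk6
  have := h.hn
  push_cast at j1 j2 j3
  omega

/-! ## T1: `2x + y = 1`, `3z = 1` -/

lemma Cfg.zT1 (h : Cfg n k x y z a b c) (hS : 3 * z = 1) : z = -k := by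
  have hK := h.k3
  linear_combination (-(k : ZMod n)) * hS + z * hK

/-- `3 s_m = 1` and `3 e_m = -1` with the same arc is impossible. -/
lemma same_one (h : Cfg n k x y z a b c) (hS : 3 * z = 1) (hE : 3 * (z + c - 1) = -1) : False := by
  have h1 : ((3 * (c : ℤ) - 1 : ℤ) : ZMod n) = 0 := by
    push_cast
    linear_combination hE - hS
  have := h.ha
  have := h.hb
  have := h.hc
  have := h.habc
  have := h.hk6
  have := h.hn
  have h2 := dv3 (dv h1) (by omega) (by omega)
  omega

/-- the same multiset `i i j` is impossible -/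
lemma same_two (h : Cfg n k x y z a b c) (hS : 2 * x + y = 1)
    (hE : 2 * (x + a - 1) + (y + b - 1) = -1) : False := by
  have h1 : ((2 * (a : ℤ) + b - 1 : ℤ) : ZMod n) = 0 := by
    push_cast
    linear_combination hE - hS
  have := h.ha
  have := h.hb
  have := h.hc
  have := h.habc
  have := h.hk6
  have := h.hn
  have h2 := dv3 (dv h1) (by omega) (by omega)
  omega

/-- (T1, T1') a): `3 e_i = -1`, `2 e_j + e_l = -1` -/
lemma t1_t1_a (h : Cfg n k x y z a b c) (hS : 2 * x + y = 1) (hS' : 3 * z = 1)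
    (hE : 3 * (x + a - 1) = -1) (hE' : 2 * (y + b - 1) + (z + c - 1) = -1) : False := by
  have hK := h.k3
  have hA := h.abc
  have hz := h.zT1 hS'
  have hx : x = -2 * k - a := by
    linear_combination (-(k : ZMod n)) * hE + (x + a) * hK
  have hy : y = k + 2 * a := by
    linear_combination hS - 2 * hx + hK
  have h1 : ((9 * (a : ℤ) + 3 * b - 8 : ℤ) : ZMod n) = 0 := by
    push_cast
    linear_combination 3 * hE' - 6 * hy - 3 * hz - 3 * hA - 2 * hK
  have := h.ha
  have := h.hb
  have := h.hc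
  have := h.habc
  have := h.hk6
  have := h.hn
  have h2 := dv3 (dv h1) (by omega) (by omega)
  have j1 := h.jz 0 1 2 rfl (2 * a - k) 0 (by push_cast; rw [hy, hz]; ring) (dvd_zero _)
  push_cast at j1
  omega

/-- (T1, T1') b): `3 e_i = -1`, `2 e_l + e_j = -1` -/
lemma t1_t1_b (h : Cfg n k x y z a b c) (hS : 2 * x + y = 1) (hS' : 3 * z = 1)
    (hE : 3 * (x + a - 1) = -1) (hE' : 2 * (z + c - 1) + (y + b - 1) = -1) :
    a = 1 ∧ c = 1 ∧ x = k ∧ y = k + 2 ∧ z = -k := by
  have hK := h.k3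
  have hA := h.abc
  have hz := h.zT1 hS'
  have hx : x = -2 * k - a := by
    linear_combination (-(k : ZMod n)) * hE + (x + a) * hK
  have hy : y = k + 2 * a := by
    linear_combination hS - 2 * hx + hK
  have h1 : (((a : ℤ) + c - 2 : ℤ) : ZMod n) = 0 := by
    push_cast
    linear_combination hE' - 2 * hz - hy - hA
  have := h.ha
  have := h.hb
  have := h.hc
  have := h.habc
  have := h.hk6
  have := h.hn
  have h2 := dv3 (dv h1) (by omega) (by omega)
  have ha1 : a = 1 := by omega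
  have hc1 : c = 1 := by omega
  subst ha1
  refine ⟨rfl, hc1, ?_, ?_, hz⟩
  · rw [hx]
    push_cast
    linear_combination -hK
  · rw [hy]
    push_cast
    ring

/-- (T1, T1') c): `3 e_j = -1`, `2 e_i + e_l = -1` -/
lemma t1_t1_c (h : Cfg n k x y z a b c) (hS : 2 * x + y = 1) (hS' : 3 * z = 1)
    (hE : 3 * (y + b - 1) = -1) (hE' : 2 * (x + a - 1) + (z + c - 1) = -1) : False := by
  have hK := h.k3
  have hA := h.abc
  have hz := h.zT1 hS'
  have hy : y = -2 * k - b := by
    linear_combination (-(k : ZMod n)) * hE + (y + b) * hK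
  have h1 : ((2 * (k : ℤ) + a - 1 : ℤ) : ZMod n) = 0 := by
    push_cast
    linear_combination hE' - hS + hy - hz - hA
  have := h.ha
  have := h.hb
  have := h.hc
  have := h.habc
  have := h.hk6
  have := h.hn
  have h2 := dv3 (dv h1) (by omega) (by omega)
  omega

/-- (T1, T1') d): `3 e_j = -1`, `2 e_l + e_i = -1` -/
lemma t1_t1_d (h : Cfg n k x y z a b c) (hS : 2 * x + y = 1) (hS' : 3 * z = 1)
    (hE : 3 * (y + b - 1) = -1) (hE' : 2 * (z + c - 1) + (x + a - 1) = -1) : False := by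
  have hK := h.k3
  have hA := h.abc
  have hz := h.zT1 hS'
  have hy : y = -2 * k - b := by
    linear_combination (-(k : ZMod n)) * hE + (y + b) * hK
  have hx : x = 2 + 2 * k - 2 * c - a := by
    linear_combination hE' - 2 * hz
  have h1 : (((k : ℤ) + 3 - 3 * c - a + n : ℤ) : ZMod n) = 0 := by
    push_cast
    linear_combination hS - 2 * hx - hy + hA + ZMod.natCast_self n
  have := h.ha
  have := h.hb
  have := h.hc
  have := h.habc
  have := h.hk6
  have := h.hn
  have h2 := dv3 (dv h1) (by omega) (by omega)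
  have j1 := h.jz 1 2 0 rfl (2 - 2 * k - 2 * c - a - 2 * b) (-n)
    (by push_cast; rw [hx, hy]; ring) (dvd_neg.2 (dvd_refl _))
  push_cast at j1
  omega

/-! ## (T1, T2') -/

/-- (T1, T2'), chain `i, l, j`: `2 e_i + e_l = -1`, `2 e_l + e_j = -1` -/
lemma t1_t2_ilj (h : Cfg n k x y z a b c) (hS : 2 * x + y = 1) (hS' : 3 * z = 1)
    (hE : 2 * (x + a - 1) + (z + c - 1) = -1) (hE' : 2 * (z + c - 1) + (y + b - 1) = -1) :
    False := by
  have hK := h.k3
  have hA := h.abc
  have hz := h.zT1 hS'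
  have h1 : (((a : ℤ) + 2 * b + 3 : ℤ) : ZMod n) = 0 := by
    push_cast
    linear_combination hS - hE - hE' + 3 * hA + 3 * hz
  have := h.ha
  have := h.hb
  have := h.hc
  have := h.habc
  have := h.hk6
  have := h.hn
  have h2 := dv3 (dv h1) (by omega) (by omega)
  omega

/-- (T1, T2'), chain `j, i, l`: `2 e_j + e_i = -1`, `2 e_i + e_l = -1` -/
lemma t1_t2_jil (h : Cfg n k x y z a b c) (hS : 2 * x + y = 1) (hS' : 3 * z = 1)
    (hE : 2 * (y + b - 1) + (x + a - 1) = -1) (hE' : 2 * (x + a - 1) + (z + c - 1) = -1) :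
    a = 1 ∧ b = 1 ∧ x = 1 ∧ y = -1 ∧ z = -k := by
  have hK := h.k3
  have hA := h.abc
  have hz := h.zT1 hS'
  have hx : x = 2 * a + b - 2 := by
    linear_combination 2 * hS - hE - hE' + hA + hz
  have h1c : 5 * (a : ZMod n) + b - 6 = 0 := by
    linear_combination hE' - 2 * hx - hA - hz
  have h1 : ((5 * (a : ℤ) + b - 6 : ℤ) : ZMod n) = 0 := by
    push_cast
    exact h1c
  have hx' : x = 4 - 3 * a := by
    linear_combination hx + h1c
  have hy : y = a - b - 1 := by
    linear_combination hS - 2 * hx - h1c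
  have := h.ha
  have := h.hb
  have := h.hc
  have := h.habc
  have := h.hk6
  have := h.hn
  have h2 := dv3 (dv h1) (by omega) (by omega)
  have j1 := h.jz 1 0 2 rfl (5 - 3 * a + k) 0
    (by push_cast; rw [hx', hz]; linear_combination -hK) (dvd_zero _)
  push_cast at j1
  have ha1 : a = 1 := by omega
  have hb1 : b = 1 := by omega
  subst ha1
  subst hb1
  refine ⟨rfl, rfl, ?_, ?_, hz⟩
  · rw [hx']
    push_cast
    ring
  · rw [hy]
    push_cast
    ring

/-- (T1, T2'), chain `j, l, i`: `2 e_j + e_l = -1`, `2 e_l + e_i = -1` -/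
lemma t1_t2_jli (h : Cfg n k x y z a b c) (hS : 2 * x + y = 1) (hS' : 3 * z = 1)
    (hE : 2 * (y + b - 1) + (z + c - 1) = -1) (hE' : 2 * (z + c - 1) + (x + a - 1) = -1) :
    False := by
  have hK := h.k3
  have hA := h.abc
  have hz := h.zT1 hS'
  have hx : x = 2 + a + 2 * b := by
    linear_combination hE' - 2 * hz - 2 * hA
  have hy : y = -3 - 2 * a - 4 * b := by
    linear_combination hS - 2 * hx
  have h1 : ((5 * (a : ℤ) + 7 * b + 8 : ℤ) : ZMod n) = 0 := by
    push_cast
    linear_combination -hE + 2 * hy + hz + hA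
  have := h.ha
  have := h.hb
  have := h.hc
  have := h.habc
  have := h.hk6
  have := h.hn
  obtain ⟨m, hm⟩ := h.hke
  have h2 := dv3 (dv h1) (by omega) (by omega)
  have j1 := h.jz 0 1 2 rfl (-3 - 2 * a - 4 * b - 2 * k) (-n)
    (by push_cast; rw [hy, hz]; ring) (dvd_neg.2 (dvd_refl _))
  have j2 := h.jz 0 3 0 rfl (-9 - 6 * a - 12 * b) (-3 * n)
    (by push_cast; rw [hy]; ring) (Dvd.intro_left _ rfl)
  push_cast at j1 j2
  omega

/-- (T1, T2'), chain `l, j, i`: `2 e_l + e_j = -1`, `2 e_j + e_i = -1` -/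
lemma t1_t2_lji (h : Cfg n k x y z a b c) (hS : 2 * x + y = 1) (hS' : 3 * z = 1)
    (hE : 2 * (z + c - 1) + (y + b - 1) = -1) (hE' : 2 * (y + b - 1) + (x + a - 1) = -1) :
    False := by
  have hK := h.k3
  have hA := h.abc
  have hz := h.zT1 hS'
  have hy : y = 2 + 2 * a + b := by
    linear_combination hE - 2 * hz - 2 * hA
  have hx : x = -2 - 5 * a - 4 * b := by
    linear_combination hE' - 2 * hy
  have h1 : ((8 * (a : ℤ) + 7 * b + 3 : ℤ) : ZMod n) = 0 := by
    push_cast
    linear_combination 2 * hx + hy - hS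
  have := h.ha
  have := h.hb
  have := h.hc
  have := h.habc
  have := h.hk6
  have := h.hn
  have h2 := dv3 (dv h1) (by omega) (by omega)
  have j1 := h.jz 1 0 2 rfl (-2 - 5 * a - 4 * b - 2 * k) (-n)
    (by push_cast; rw [hx, hz]; ring) (dvd_neg.2 (dvd_refl _))
  have j2 := h.jz 1 1 1 rfl (-3 * a - 3 * b - k) (-n)
    (by push_cast; rw [hx, hy, hz]; ring) (dvd_neg.2 (dvd_refl _))
  push_cast at j1 j2
  omega

end Pool.Agent.Helper55.FF
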