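import Mathlib
import Pool.Agent.Helper92.FF.P8Defs
import Pool.Agent.Helper55.FF.Cases

/-!
# Row P8: the cases (T0, T1'), (T0, T2'), (T1, T1'), (T1, T2') in the form of `P8Defs`
-/

set_option autoImplicit false

namespace Pool.Agent.Helper55.FF

open Pool.Agent.Helper92.FF (Concl)

variable {n k : ℤ} {s a : Fin 3 → ℤ}

lemma dvd_iff (hn : 0 ≤ n) (e : ℤ) : n ∣ e ↔ ((e : ℤ) : ZMod n.toNat) = 0 := by
  rw [ZMod.intCast_zmod_eq_zero_iff_dvd, Int.toNat_of_nonneg hn]

lemma toNat_cast {m : ℕ} {e : ℤ} (he : 0 ≤ e) : ((e.toNat : ℕ) : ZMod m) = ((e : ℤ) : ZMod m) := by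
  conv_rhs => rw [← Int.toNat_of_nonneg he]
  rw [Int.cast_natCast]

lemma bridge (C : Pool.Agent.Helper92.FF.Cfg n k s a) {i j l : Fin 3} (hij : i ≠ j) (hil : i ≠ l)
    (hjl : j ≠ l) :
    Cfg n.toNat k.toNat ((s i : ℤ) : ZMod n.toNat) ((s j : ℤ) : ZMod n.toNat)
      ((s l : ℤ) : ZMod n.toNat) (a i).toNat (a j).toNat (a l).toNat := by
  have hn := C.hn
  have hk := C.hk
  have hev := C.hev
  have hi := C.pos i
  have hj := C.pos j
  have hl := C.pos l
  have hs := C.sum' hij hil hjl
  refine ⟨by omega, by omega, ?_, by omega, by omega, by omega, by omega, ?_⟩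
  · rw [Nat.even_iff]
    omega
  · intro p q r t hpqr ht hcon
    have key : ∀ u v w : Fin 3, t + 3 ≤ (a u).toNat + (a v).toNat + (a w).toNat →
        ((s u : ℤ) : ZMod n.toNat) + ((s v : ℤ) : ZMod n.toNat) + ((s w : ℤ) : ZMod n.toNat) + t ≠
          0 := by
      intro u v w h1 h2
      apply C.J u v w t (by omega)
      · have := C.pos u
        have := C.pos v
        have := C.pos w
        omega
      · rw [dvd_iff (by omega)]
        push_cast
        exact h2
    have hp : p ≤ 3 := by omega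
    have hq : q ≤ 3 := by omega
    have hr : r ≤ 3 := by omega
    interval_cases p <;> interval_cases q <;> interval_cases r <;> first | omega | skip
    · exact key l l l (by omega) (by rw [← hcon]; push_cast; ring)
    · exact key j l l (by omega) (by rw [← hcon]; push_cast; ring)
    · exact key j j l (by omega) (by rw [← hcon]; push_cast; ring)
    · exact key j j j (by omega) (by rw [← hcon]; push_cast; ring)
    · exact key i l l (by omega) (by rw [← hcon]; push_cast; ring)
    · exact key i j l (by omega) (by rw [← hcon]; push_cast; ring)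
    · exact key i j j (by omega) (by rw [← hcon]; push_cast; ring)
    · exact key i i l (by omega) (by rw [← hcon]; push_cast; ring)
    · exact key i i j (by omega) (by rw [← hcon]; push_cast; ring)
    · exact key i i i (by omega) (by rw [← hcon]; push_cast; ring)

/-- an end equation in `ZMod` -/
lemma castE (C : Pool.Agent.Helper92.FF.Cfg n k s a) {i : Fin 3} :
    (((a i).toNat : ℕ) : ZMod n.toNat) = ((a i : ℤ) : ZMod n.toNat) :=
  toNat_cast (by have := C.pos i; omega)

theorem case_01 (C : Pool.Agent.Helper92.FF.Cfg n k s a) {i j l : Fin 3} (hij : i ≠ j)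
    (hil : i ≠ l) (hjl : j ≠ l) (S : n ∣ s i + s j + s l - 1)
    (E1 : n ∣ 2 * (s i + a i) + (s j + a j) - 2) (E2 : n ∣ 3 * (s l + a l) - 2) : False := by
  have hn := C.hn
  have hk := C.hk
  rw [dvd_iff (by omega)] at S E1 E2
  push_cast at S E1 E2
  refine t0_t1 (bridge C hij hil hjl) ?_ ?_ ?_
  · linear_combination S
  · rw [castE C, castE C]
    linear_combination E1
  · rw [castE C]
    linear_combination E2

theorem case_02 (C : Pool.Agent.Helper92.FF.Cfg n k s a) {i j l : Fin 3} (hij : i ≠ j)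
    (hil : i ≠ l) (hjl : j ≠ l) (S : n ∣ s i + s j + s l - 1)
    (E1 : n ∣ 2 * (s i + a i) + (s j + a j) - 2)
    (E2 : n ∣ 2 * (s j + a j) + (s l + a l) - 2) : False := by
  have hn := C.hn
  have hk := C.hk
  rw [dvd_iff (by omega)] at S E1 E2
  push_cast at S E1 E2
  refine t0_t2 (bridge C hij hil hjl) ?_ ?_ ?_
  · linear_combination S
  · rw [castE C, castE C]
    linear_combination E1
  · rw [castE C, castE C]
    linear_combination E2

theorem case_11_ilj (C : Pool.Agent.Helper92.FF.Cfg n k s a) {i j l : Fin 3} (hij : i ≠ j)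
    (hil : i ≠ l) (hjl : j ≠ l) (S1 : n ∣ 2 * s i + s j - 1) (S2 : n ∣ 3 * s l - 1)
    (E1 : n ∣ 2 * (s i + a i) + (s l + a l) - 2) (E2 : n ∣ 3 * (s j + a j) - 2) : False := by
  have hn := C.hn
  have hk := C.hk
  rw [dvd_iff (by omega)] at S1 S2 E1 E2
  push_cast at S1 S2 E1 E2
  refine t1_t1_c (bridge C hij hil hjl) ?_ ?_ ?_ ?_
  · linear_combination S1
  · linear_combination S2
  · rw [castE C]
    linear_combination E2
  · rw [castE C, castE C]
    linear_combination E1

theorem case_11_jli (C : Pool.Agent.Helper92.FF.Cfg n k s a) {i j l : Fin 3} (hij : i ≠ j)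
    (hil : i ≠ l) (hjl : j ≠ l) (S1 : n ∣ 2 * s i + s j - 1) (S2 : n ∣ 3 * s l - 1)
    (E1 : n ∣ 2 * (s j + a j) + (s l + a l) - 2) (E2 : n ∣ 3 * (s i + a i) - 2) : False := by
  have hn := C.hn
  have hk := C.hk
  rw [dvd_iff (by omega)] at S1 S2 E1 E2
  push_cast at S1 S2 E1 E2
  refine t1_t1_a (bridge C hij hil hjl) ?_ ?_ ?_ ?_
  · linear_combination S1
  · linear_combination S2
  · rw [castE C]
    linear_combination E2
  · rw [castE C, castE C]
    linear_combination E1

theorem case_11_lij (C : Pool.Agent.Helper92.FF.Cfg n k s a) {i j l : Fin 3} (hij : i ≠ j)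
    (hil : i ≠ l) (hjl : j ≠ l) (S1 : n ∣ 2 * s i + s j - 1) (S2 : n ∣ 3 * s l - 1)
    (E1 : n ∣ 2 * (s l + a l) + (s i + a i) - 2) (E2 : n ∣ 3 * (s j + a j) - 2) : False := by
  have hn := C.hn
  have hk := C.hk
  rw [dvd_iff (by omega)] at S1 S2 E1 E2
  push_cast at S1 S2 E1 E2
  refine t1_t1_d (bridge C hij hil hjl) ?_ ?_ ?_ ?_
  · linear_combination S1
  · linear_combination S2
  · rw [castE C]
    linear_combination E2
  · rw [castE C, castE C]
    linear_combination E1

theorem case_11_lji (C : Pool.Agent.Helper92.FF.Cfg n k s a) {i j l : Fin 3} (hij : i ≠ j)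
    (hil : i ≠ l) (hjl : j ≠ l) (S1 : n ∣ 2 * s i + s j - 1) (S2 : n ∣ 3 * s l - 1)
    (E1 : n ∣ 2 * (s l + a l) + (s j + a j) - 2) (E2 : n ∣ 3 * (s i + a i) - 2) :
    Concl n s a := by
  have hn := C.hn
  have hk := C.hk
  rw [dvd_iff (by omega)] at S1 S2 E1 E2
  push_cast at S1 S2 E1 E2
  have h := t1_t1_b (bridge C hij hil hjl) (by linear_combination S1) (by linear_combination S2)
    (by rw [castE C]; linear_combination E2) (by rw [castE C, castE C]; linear_combination E1)
  obtain ⟨ha, hc, hx, hy, hz⟩ := h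
  have hi := C.pos i
  have hl := C.pos l
  have hs := C.sum' hij hil hjl
  have ha1 : a i = 1 := by omega
  have hc1 : a l = 1 := by omega
  have hb1 : a j = k - 2 := by omega
  rw [toNat_cast (by omega)] at hx hy hz
  have hx' : n ∣ s i - k := by
    rw [dvd_iff (by omega)]
    push_cast
    linear_combination hx
  have hy' : n ∣ s j - (k + 2) := by
    rw [dvd_iff (by omega)]
    push_cast
    linear_combination hy
  have hz' : n ∣ s l + k := by
    rw [dvd_iff (by omega)]
    push_cast
    linear_combination hz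
  obtain ⟨X, hX⟩ := hx'
  obtain ⟨Y, hY⟩ := hy'
  obtain ⟨Z, hZ⟩ := hz'
  refine ⟨2, 2 * k - 2, -k, ?_, ?_⟩
  · intro h
    have := Int.le_of_dvd (by norm_num) h
    omega
  · intro m c h0 h1
    rcases Pool.Agent.Helper92.FF.fin3_cases i j l m hij hil hjl with rfl | rfl | rfl
    · right; right
      refine ⟨j, 0, le_rfl, by omega, X - Y, ?_⟩
      rw [mul_sub, ← hX, ← hY]
      have : c = 0 := by omega
      subst this
      ring
    · by_cases h3 : c + 2 < a m
      · right; right
        exact ⟨m, c + 2, by omega, h3, 0, by ring⟩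
      · by_cases h4 : c = k - 4
        · left
          refine ⟨Y, ?_⟩
          rw [← hY, h4]
          ring
        · right; right
          have h5 : c = k - 3 := by omega
          refine ⟨l, 0, le_rfl, by omega, Y - Z + 1, ?_⟩
          rw [mul_add, mul_sub, ← hY, ← hZ, h5, hn]
          ring
    · right; left
      refine ⟨Z, ?_⟩
      rw [← hZ]
      have : c = 0 := by omega
      subst this
      ring

theorem case_12_ilj (C : Pool.Agent.Helper92.FF.Cfg n k s a) {i j l : Fin 3} (hij : i ≠ j)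
    (hil : i ≠ l) (hjl : j ≠ l) (S1 : n ∣ 2 * s i + s j - 1) (S2 : n ∣ 3 * s l - 1)
    (E1 : n ∣ 2 * (s i + a i) + (s l + a l) - 2)
    (E2 : n ∣ 2 * (s l + a l) + (s j + a j) - 2) : False := by
  have hn := C.hn
  have hk := C.hk
  rw [dvd_iff (by omega)] at S1 S2 E1 E2
  push_cast at S1 S2 E1 E2
  refine t1_t2_ilj (bridge C hij hil hjl) ?_ ?_ ?_ ?_
  · linear_combination S1
  · linear_combination S2
  · rw [castE C, castE C]
    linear_combination E1
  · rw [castE C, castE C]
    linear_combination E2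

theorem case_12_jil (C : Pool.Agent.Helper92.FF.Cfg n k s a) {i j l : Fin 3} (hij : i ≠ j)
    (hil : i ≠ l) (hjl : j ≠ l) (S1 : n ∣ 2 * s i + s j - 1) (S2 : n ∣ 3 * s l - 1)
    (E1 : n ∣ 2 * (s j + a j) + (s i + a i) - 2)
    (E2 : n ∣ 2 * (s i + a i) + (s l + a l) - 2) : Concl n s a := by
  have hn := C.hn
  have hk := C.hk
  rw [dvd_iff (by omega)] at S1 S2 E1 E2
  push_cast at S1 S2 E1 E2
  have h := t1_t2_jil (bridge C hij hil hjl) (by linear_combination S1) (by linear_combination S2)
    (by rw [castE C, castE C]; linear_combination E1)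
    (by rw [castE C, castE C]; linear_combination E2)
  obtain ⟨ha, hb, hx, hy, hz⟩ := h
  have hi := C.pos i
  have hj := C.pos j
  have hs := C.sum' hij hil hjl
  have ha1 : a i = 1 := by omega
  have hb1 : a j = 1 := by omega
  have hc1 : a l = k - 2 := by omega
  rw [toNat_cast (by omega)] at hz
  have hx' : n ∣ s i - 1 := by
    rw [dvd_iff (by omega)]
    push_cast
    linear_combination hx
  have hy' : n ∣ s j + 1 := by
    rw [dvd_iff (by omega)]
    push_cast
    linear_combination hy
  have hz' : n ∣ s l + k := by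
    rw [dvd_iff (by omega)]
    push_cast
    linear_combination hz
  obtain ⟨X, hX⟩ := hx'
  obtain ⟨Y, hY⟩ := hy'
  obtain ⟨Z, hZ⟩ := hz'
  refine ⟨2, 1, -4, ?_, ?_⟩
  · intro h
    have := Int.le_of_dvd (by norm_num) h
    omega
  · intro m c h0 h1
    rcases Pool.Agent.Helper92.FF.fin3_cases i j l m hij hil hjl with rfl | rfl | rfl
    · left
      refine ⟨X, ?_⟩
      rw [← hX]
      have : c = 0 := by omega
      subst this
      ring
    · right; right
      refine ⟨i, 0, le_rfl, by omega, Y - X, ?_⟩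
      rw [mul_sub, ← hX, ← hY]
      have : c = 0 := by omega
      subst this
      ring
    · by_cases h3 : c + 2 < a m
      · right; right
        exact ⟨m, c + 2, by omega, h3, 0, by ring⟩
      · by_cases h4 : c = k - 4
        · right; left
          refine ⟨Z, ?_⟩
          rw [← hZ, h4]
          ring
        · right; right
          have h5 : c = k - 3 := by omega
          refine ⟨j, 0, le_rfl, by omega, Z - Y, ?_⟩
          rw [mul_sub, ← hY, ← hZ, h5]
          ring

theorem case_12_jli (C : Pool.Agent.Helper92.FF.Cfg n k s a) {i j l : Fin 3} (hij : i ≠ j)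
    (hil : i ≠ l) (hjl : j ≠ l) (S1 : n ∣ 2 * s i + s j - 1) (S2 : n ∣ 3 * s l - 1)
    (E1 : n ∣ 2 * (s j + a j) + (s l + a l) - 2)
    (E2 : n ∣ 2 * (s l + a l) + (s i + a i) - 2) : False := by
  have hn := C.hn
  have hk := C.hk
  rw [dvd_iff (by omega)] at S1 S2 E1 E2
  push_cast at S1 S2 E1 E2
  refine t1_t2_jli (bridge C hij hil hjl) ?_ ?_ ?_ ?_
  · linear_combination S1
  · linear_combination S2
  · rw [castE C, castE C]
    linear_combination E1
  · rw [castE C, castE C]
    linear_combination E2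

theorem case_12_lji (C : Pool.Agent.Helper92.FF.Cfg n k s a) {i j l : Fin 3} (hij : i ≠ j)
    (hil : i ≠ l) (hjl : j ≠ l) (S1 : n ∣ 2 * s i + s j - 1) (S2 : n ∣ 3 * s l - 1)
    (E1 : n ∣ 2 * (s l + a l) + (s j + a j) - 2)
    (E2 : n ∣ 2 * (s j + a j) + (s i + a i) - 2) : False := by
  have hn := C.hn
  have hk := C.hk
  rw [dvd_iff (by omega)] at S1 S2 E1 E2
  push_cast at S1 S2 E1 E2
  refine t1_t2_lji (bridge C hij hil hjl) ?_ ?_ ?_ ?_
  · linear_combination S1
  · linear_combination S2
  · rw [castE C, castE C]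
    linear_combination E1
  · rw [castE C, castE C]
    linear_combination E2

end Pool.Agent.Helper55.FF
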